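import Pool.Agent.Helper87.CA.Defs

/-!
Project CA (MP_c5396e_co): goals (packets). Theorem: `C(n) <= exp (K n^(4/5) (log n)^(6/5))`.
-/

set_option autoImplicit false

open Finset

namespace Pool.Agent.Helper87.CA

/-- GOAL WIN (windows). Proof. (1) For `a b : ℤ` in `[0,n)` the number of `s ∈ Ioo (-u) n` with
`s ≤ a < s + u` and `s ≤ b < s + u` is `max 0 (u - |a-b|)`: these `s` form `Ioc (max a b - u)
(min a b)`, contained in `Ioo (-u) n`. The windows split as a product, so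
`∑ t ∈ Om n u, [InW u t x] * [InW u t y] = wt2 u (x - y)` for `x, y` in `[0,n)^2` (all `pt f i`
are). Write `cw` as a sum of indicators and exchange sums: first claim.
(2) The same with one point: `∑ t, [InW u t x] = u^2` (take `y = x`, `wt2 u 0 = u^2`): second claim.
(3) `∑ j ∈ Ioo (-u) u, (u - |j|) = u^2` (induction on `u`, or the sum over `0 ≤ j < u` twice), and
`∑ δ ∈ Box u, wt2 u δ` is its square: third claim. -/
def G_WIN : Prop :=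
  (∀ (n u : ℕ) (f g : Fin n → Fin n) (I J : Finset (Fin n)),
    ∑ t ∈ Om n u, (cw u f I t : ℝ) * (cw u g J t : ℝ) =
      ∑ i ∈ I, ∑ j ∈ J, wt2 u (pt f i - pt g j)) ∧
  (∀ (n u : ℕ) (f : Fin n → Fin n) (I : Finset (Fin n)),
    ∑ t ∈ Om n u, (cw u f I t : ℝ) = I.card * (u : ℝ) ^ 2) ∧
  (∀ u : ℕ, ∑ δ ∈ Box u, wt2 u δ = (u : ℝ) ^ 4)

/-- GOAL ET (Erdos-Turan with all error terms). Proof. Use `G_WIN` (a hypothesis). Put `d = u^2/n`.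
`∑_t cw(t)^2 = ∑_{i,j} wt2 (pt f i - pt f j) = n u^2 + ∑_{i ≠ j} wt2 (pt f i - pt f j)`
(`wt2 u 0 = u^2`). By `Cos f` the map `(i,j) ↦ pt f i - pt f j` is injective on `i ≠ j`, with image
`DD f` (which does not contain 0), and `wt2 u δ = 0` off `Box u`, so the last sum is
`∑_{δ ∈ Box u, δ ∈ DD f} wt2 u δ = ∑_{δ ∈ Box u} wt2 u δ - wt2 u 0 - miss u f
= u^4 - u^2 - miss u f`. Next `∑_t cw(t) = n u^2` and `|Om n u| = (n+u-1)^2 ≤ (n+u)^2`, so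
`∑_t (cw(t)-d)^2 + miss ≤ n u^2 + u^4 - u^2 - 2 d n u^2 + d^2 (n+u)^2
≤ n u^2 - u^4 + u^4 (1+u/n)^2 ≤ n u^2 + 3 u^5/n` since `(1+u/n)^2 ≤ 1 + 3u/n` for `u ≤ n`. -/
def G_ET : Prop :=
  G_WIN → ∀ (n u : ℕ) (f : Fin n → Fin n), Cos f → 1 ≤ u → u ≤ n →
    ∑ t ∈ Om n u, ((cw u f univ t : ℝ) - (u : ℝ) ^ 2 / n) ^ 2 + miss u f ≤
      n * (u : ℝ) ^ 2 + 3 * (u : ℝ) ^ 5 / n

/-- GOAL LV (two arrays which agree on `R` are close). Proof. Put `d = u^2/n`, `k = |V|`,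
`V = Vd g f` (columns where `g` and `f` differ; nonempty), `E = n u^2 + 3 u^5/n`, `A = k d u^2`.
Hypothesis `hk` says `200 E ≤ p A` (multiply by `u^4/n`). Write `V_t = cw u g V t`,
`G_t = cw u g univ t`, `F_t = cw u f univ t`, `R_t = cw u f R t`; sums over `t ∈ Om n u`.
(1) By ET for `g` and for `f` (and `miss ≥ 0`): `∑ (G_t-d)^2 ≤ E`, `∑ (F_t-d)^2 ≤ E`, `miss u f ≤ E`.
(2) `Z := sqrt (∑ V_t^2)`. `V_t ≤ G_t`, so `Z^2 ≤ ∑ V_t G_t = d ∑ V_t + ∑ V_t (G_t - d)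
≤ A + Z sqrt E` (`∑ V_t = k u^2`, Cauchy-Schwarz), so `Z^2 ≤ 2 A + E`, and
`Z sqrt E ≤ sqrt (2.005 A * A/200) ≤ A/8` (recall `p ≤ 1`, `E ≤ A/200`).
(3) For `t` with `F_t < d/2`: `1 ≤ (2/d) |F_t - d|`, so `∑_{F_t < d/2} V_t ≤ (2/d) Z sqrt E
≤ (2/d)(A/8) = k u^2/4`, hence `∑_{F_t ≥ d/2} V_t ≥ (3/4) k u^2`, and by `hw`
`∑ V_t R_t ≥ (p d/4)(3/4) k u^2 = (3/16) p A`.
(4) By WIN `∑ V_t R_t = ∑_{i ∈ V, j ∈ R} wt2 u (pt g i - pt f j)`, and `pt f j = pt g j` for `j ∈ R`.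
Here `i ≠ j` as `i ∈ V`, `j ∈ R`. By `Cos g` the differences `pt g i - pt g j` are pairwise distinct
for `(i,j) ∈ V × R`, and nonzero. Those which are in `Box u` and not in `DD f` contribute at most
`miss u f ≤ E`. Those not in `Box u` contribute 0. The others: for given `i ∈ V` the `j ∈ R` with
`pt g i - pt f j ∈ Box u ∩ DD f` are the elements of `R ∩ A1 u f (pt g i)`, each contributes at
most `u^2`. The point `v = pt g i` is no dot of `f` (same column, other row). It is not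
killed by `R`: if `v - pt f j = pt f b - pt f c`, `j, b, c ∈ R`, `b ≠ c`, then
`pt g b - pt g c = pt g i - pt g j`, so `b = i` by `Cos g`, but `f b = g b` (`b ∈ R`)
and `f i ≠ g i`. Hence by `hv` `|R ∩ A1 u f v| < C1`, and the total is `< k C1 u^2 + E` (`k ≥ 1`).
(5) `(3/16) p A < k C1 u^2 + E ≤ k C1 u^2 + p A/200`, so `p A/8 < k C1 u^2`, i.e. `p d/8 < C1`. -/
def G_LV : Prop :=
  G_WIN → G_ET → ∀ (n u : ℕ) (f g : Fin n → Fin n) (R : Finset (Fin n)) (p C1 : ℝ),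
    Cos f → Cos g → 1 ≤ u → u ≤ n → 0 < p → p ≤ 1 → (Vd g f).Nonempty →
    (∀ i ∈ R, f i = g i) →
    (200 * ((n : ℝ) ^ 2 / (u : ℝ) ^ 2 + 3 * u) ≤ p * (Vd g f).card) →
    (∀ t ∈ Om n u, (u : ℝ) ^ 2 / n / 2 ≤ cw u f Finset.univ t →
      p * ((u : ℝ) ^ 2 / n) / 4 ≤ cw u f R t) →
    (∀ v ∈ Finset.Ico (0 : ℤ) n ×ˢ Finset.Ico (0 : ℤ) n, (∀ i, pt f i ≠ v) →
      ((R ∩ A1 u f v).card : ℝ) < C1 ∨ Kill f R v) →
    p * ((u : ℝ) ^ 2 / n) / 8 < C1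

open Pool.Agent.Helper96 in
/-- GOAL PK (a point with many excluding triples is killed). `pr p` is the product Bernoulli
measure of `Pool/Agent/Helper96/Bern.lean`, here on `Fin n → Bool`. Proof. For `j ∈ A1 u f v` choose
`b j ≠ c j` with `v - pt f j = pt f (b j) - pt f (c j)`; put `X j = {j, b j, c j}` (a set of 2 or 3
columns). If all columns of some `X j` are `true` then `Kill`. Each column `x` lies in at most 4 of
the sets `X j`: `x = j`; `x = b j`: then `v - pt f x = pt f j - pt f (c j)`, where `j ≠ c j` (else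
`v = pt f x`), so `j` is determined by `Cos f` (if `pt f j - pt f c = pt f j' - pt f c'` with
`j ≠ c` then `j = j'`); `x = c j`: then
`pt f j + pt f (b j) = v + pt f x`; two such `j, j'` satisfy
`pt f j - pt f j' = pt f (b j') - pt f (b j)`, so `j = j'` or `j = b j'` (by `Cos f`): at most two
values of `j`. So each `X j` meets at most 12 sets `X i` (itself included); a maximal subfamily `J`
of pairwise disjoint `X j` has `|A1| ≤ 12 |J|`. Janson's inequality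
`Pool.Agent.Helper96.janson` for the family `J` (no intersecting pairs, `p^|X j| ≥ p^3`) gives
`pr p (no X j, j ∈ J, is all true) ≤ exp (-p^3 |J|) ≤ exp (-p^3 |A1| / 13)`. (Or use
`pr_forall_of_disjoint` and `pr_all_true`.) -/
def G_PK : Prop :=
  ∀ (n u : ℕ) (f : Fin n → Fin n) (v : ℤ × ℤ) (p : ℝ), Cos f → (∀ i, pt f i ≠ v) → 0 ≤ p → p ≤ 1 →
    pr p (fun ω : Fin n → Bool => ¬ Kill f (Rs ω) v) ≤
      Real.exp (-(p ^ 3 * (A1 u f v).card / 13))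

open Pool.Agent.Helper96 in
/-- GOAL GOOD (most random sets of columns are good). Proof, using `G_PK` (a hypothesis) and the
Chernoff bounds `chernoff_upper'`, `chernoff_lower'` of `Pool/Agent/Helper96/Chernoff.lean` (events
`ω i = true`, blocks `{i}`; `pr p (ω i = true) = p` is `pr_all_true` for a singleton).
Put `L = log n`, `d = u^2/n`. Union bound (`pr_exists_le_card`, `pr_or_le`, `pr_not`):
(a) For `t ∈ Om n u` with `d/2 ≤ |I|`, `I = {i | InW u t (pt f i)}` (`|I| = cw u f univ t`):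
`cw u f (Rs ω) t = #{i ∈ I | ω i}`; if it is `< p d/4 ≤ |I| p/2` then the Chernoff
lower tail gives probability `≤ exp (-|I| p/8) ≤ exp (-p d/16) ≤ n^(-4)` (as `64 L ≤ p d`). There are
`(n+u-1)^2 ≤ 4 n^2` windows: total at most `4/n^2`.
(b) For each of the `n^2` points `v`, no dot of `f`: if `N0 ≤ |A1 u f v|` then by `G_PK` the
probability of no `Kill` is `≤ exp (-p^3 N0/13) ≤ n^(-4)`; if `|A1 u f v| < N0` then by the Chernoff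
upper tail with `m = 4 p N0 ≥ 4 |A1| p` the probability of `4 p N0 ≤ |Rs ω ∩ A1 u f v|` is
`≤ exp (-2 p N0) ≤ n^(-4)` (as `p N0 ≥ p^3 N0 ≥ 52 L`). Total at most `1/n^2`.
(c) Markov: the mean of `|Rs ω ∩ Vd f f0|` is `p |Vd f f0| ≤ p k`, so it is `≥ 4 p k` with
probability at most `1/4` (`pr_le_ex`).
Sum: `5/n^2 + 1/4 ≤ 1/2` as `n ≥ 5`. -/
def G_GOOD : Prop :=
  G_PK → ∀ (n u : ℕ) (f0 f : Fin n → Fin n) (p N0 k : ℝ), 5 ≤ n → Cos f → 1 ≤ u → u ≤ n →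
    0 < p → p ≤ 1 → 0 < k → ((Vd f f0).card : ℝ) ≤ k →
    52 * Real.log n ≤ p ^ 3 * N0 → 64 * Real.log n ≤ p * ((u : ℝ) ^ 2 / n) →
    1 / 2 ≤ pr p (Good u p N0 k f0 f)

/-- GOAL SUB (number of small subsets). Proof. The number is `∑_{j ≤ s} C(N,j)`, `N = card α`, and
`C(N,j) ≤ N^j ≤ C(s,j) N^j` for `j ≤ s`; the sum is at most `(N+1)^s` by the binomial theorem. -/
def G_SUB : Prop :=
  ∀ (α : Type) [Fintype α] [DecidableEq α] (s : ℕ),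
    ((Finset.univ : Finset (Finset α)).filter (fun A => A.card ≤ s)).card ≤
      (Fintype.card α + 1) ^ s

/-- GOAL TRIV (trivial bound). Proof. Let `F` be a family, `f0 ∈ F`. The set
`κ f = {(i, f i) | f i ≠ f0 i} ⊆ Fin n × Fin n` has at most `⌊k⌋₊` elements and
determines `f`. Use `G_SUB` for `Fin n × Fin n`. -/
def G_TRIV : Prop :=
  G_SUB → ∀ (n : ℕ) (k : ℝ), 0 ≤ k → Bd n k (((n : ℝ) ^ 2 + 1) ^ ⌊k⌋₊)

/-- GOAL REC (recursion). Proof. Let `F` be a family as in `Bd n k`; if `F = ∅` nothing to do (`M ≥ 0`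
from `Bd n k' M` and `F = ∅`). Let `f0 ∈ F`. By `GOOD` `∑_{f ∈ F} pr p (Good u p N0 k f0 f) ≥ |F|/2`,
so there is one `ω` such that the set `F1` of `f ∈ F` with `Good u p N0 k f0 f ω` has
`|F1| ≥ |F|/2` (`pr` is `ex` of an indicator; exchange the sums; total weight 1: `ex_const`). (`p d ≥ 64 log n`
for GOOD follows from `32 N0 ≤ u^2/n`, `52 log n ≤ p^3 N0`, `p ≤ 1`.) Put `R = Rs ω` and
`κ f = (R ∩ Vd f f0).image (fun i => (i, f i))`; for `f ∈ F1` it has `< 4 p k`, so `≤ ⌊4 p k⌋₊`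
elements. By `G_SUB` there are at most `(n^2+1)^⌊4pk⌋₊` values, so it is enough that each
fibre `F2 = {f ∈ F1 | κ f = κ0}` has at most `M` elements (`Finset.card_le_mul_card_image` or
`card_eq_sum_card_fiberwise`). Two elements `f, g` of `F2` agree on `R`. They differ in at most `k'`
columns: otherwise `Vd g f` is nonempty and `p * |Vd g f| ≥ p k' ≥ 200 (...)`, and `G_LV` with
`C1 = 4 p N0` gives `p (u^2/n)/8 < 4 p N0`, against `32 N0 ≤ u^2/n`. So `|F2| ≤ M` by `Bd n k' M`. -/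
def G_REC : Prop :=
  G_WIN → G_ET → G_LV → G_PK → G_GOOD → G_SUB →
  ∀ (n u : ℕ) (p N0 k k' M : ℝ), 5 ≤ n → 1 ≤ u → u ≤ n → 0 < p → p ≤ 1 → 0 < k → 0 < k' →
    52 * Real.log n ≤ p ^ 3 * N0 → 32 * N0 ≤ (u : ℝ) ^ 2 / n →
    200 * ((n : ℝ) ^ 2 / (u : ℝ) ^ 2 + 3 * u) ≤ p * k' →
    Bd n k' M → Bd n k (2 * ((n : ℝ) ^ 2 + 1) ^ ⌊4 * p * k⌋₊ * M)

/-- The hypotheses of the recursion are fulfilled. -/
def Rec : Prop :=
  ∀ (n u : ℕ) (p N0 k k' M : ℝ), 5 ≤ n → 1 ≤ u → u ≤ n → 0 < p → p ≤ 1 → 0 < k → 0 < k' →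
    52 * Real.log n ≤ p ^ 3 * N0 → 32 * N0 ≤ (u : ℝ) ^ 2 / n →
    200 * ((n : ℝ) ^ 2 / (u : ℝ) ^ 2 + 3 * u) ≤ p * k' →
    Bd n k' M → Bd n k (2 * ((n : ℝ) ^ 2 + 1) ^ ⌊4 * p * k⌋₊ * M)

/-- The number of levels: least `I` with `n^(1/5) ≤ 2^I`. -/
noncomputable def lev (n : ℕ) : ℕ := Nat.find (p := fun I => (n : ℝ) ^ (1 / 5 : ℝ) ≤ 2 ^ I)
  (by obtain ⟨I, hI⟩ := pow_unbounded_of_one_lt ((n : ℝ) ^ (1 / 5 : ℝ)) (by norm_num : (1 : ℝ) < 2)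
      exact ⟨I, hI.le⟩)

/-- GOAL STEP (the parameters of level `i`). With `L = log n`, `p0 = (2*10^10 L/n)^(1/5)`,
`p = p0 (4/3)^i`, `k = n/2^i`, `k' = k/2`, `N0 = 52 L/p^3` and `u = ⌊p k/1600⌋₊` the conditions of
`Rec` hold for all large `n` and all `i < lev n`. Proof. `i < lev n` gives `2^i < n^(1/5)`.
(1) `(4/3)^2 < 2`, so `(4/3)^i ≤ (2^i)^(1/2) ≤ n^(1/10)` and `p ≤ (2*10^10 L)^(1/5) n^(-1/10) ≤ 1`
for large `n`. (2) `p k = p0 n (2/3)^i`, `(3/2)^5 < 2^3`, so `(3/2)^i ≤ (2^i)^(3/5) ≤ n^(3/25)`, and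
`p k ≥ (2*10^10 L)^(1/5) n^(4/5 - 3/25) ≥ 3200 n^(2/3)` for large `n` (`4/5 - 3/25 = 17/25 > 2/3`).
So `u ≥ p k/1600 - 1 ≥ p k/3200 ≥ n^(2/3)`, `u ≤ p k/1600 ≤ n`.
(3) `n^2/u^2 ≤ u` as `u^3 ≥ n^2`, so `200 (n^2/u^2 + 3u) ≤ 800 u ≤ p k/2 = p k'`.
(4) `p^5 = p0^5 ((4/3)^5)^i ≥ (2*10^10 L/n) 4^i = 2*10^10 n L/k^2` as `(4/3)^5 > 4`. So
`u^2 p^3 ≥ p^5 k^2/3200^2 ≥ 2*10^10 n L/3200^2 ≥ 1664 n L`, i.e. `32 N0 = 1664 L/p^3 ≤ u^2/n`. -/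
def G_STEP : Prop :=
  ∃ n0 : ℕ, ∀ n : ℕ, n0 ≤ n → ∀ i : ℕ, i < lev n →
    ∀ (p k : ℝ) (u : ℕ), p = (2 * 10 ^ 10 * Real.log n / n) ^ (1 / 5 : ℝ) * (4 / 3) ^ i →
      k = n / 2 ^ i → u = ⌊p * k / 1600⌋₊ →
      0 < p ∧ p ≤ 1 ∧ 1 ≤ u ∧ u ≤ n ∧ 32 * (52 * Real.log n / p ^ 3) ≤ (u : ℝ) ^ 2 / n ∧
      200 * ((n : ℝ) ^ 2 / (u : ℝ) ^ 2 + 3 * u) ≤ p * (k / 2)

/-- GOAL ITER (iteration of the recursion). Proof. Let `n` be large, `I = lev n`. By `Rec`,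
`STEP` and downward induction from `i = I` (where `TRIV` applies)
`Bd n (n/2^i) ((∏_{i ≤ j < I} 2 (n^2+1)^⌊4 p_j k_j⌋₊) (n^2+1)^⌊n/2^I⌋₊)`, `p_j = p0 (4/3)^j`,
`k_j = n/2^j`. For `i = 0`: `∑_j 4 p_j k_j = 4 p0 n ∑_j (2/3)^j ≤ 12 p0 n = 12 (2*10^10 L)^(1/5) n^(4/5)`,
`n/2^I ≤ n^(4/5)`, `2^(I-1) < n^(1/5)`, so `I ≤ 1 + 2 L` and `2^I ≤ exp (1 + 2L)`, `n^2+1 ≤ exp (3L)`. So the
bound is at most `exp (2 + 2L + 3L (12 (2*10^10 L)^(1/5) n^(4/5) + n^(4/5))) ≤ exp (K n^(4/5) L^(6/5))` for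
`K = 5000` (`(2*10^10)^(1/5) < 115`, `L ≥ 1`). -/
def G_ITER : Prop :=
  Rec → G_STEP → (∀ (n : ℕ) (k : ℝ), 0 ≤ k → Bd n k (((n : ℝ) ^ 2 + 1) ^ ⌊k⌋₊)) →
    ∃ n0 : ℕ, ∀ n : ℕ, n0 ≤ n →
      Bd n n (Real.exp (5000 * ((n : ℝ) ^ (4 / 5 : ℝ) * Real.log n ^ (6 / 5 : ℝ))))

/-- GOAL FIN (final form). Proof. (1) A Costas permutation `f` satisfies `Cos f`: given `i ≠ j` and
`pt f i - pt f j = pt f k - pt f l`: the first coordinate gives `i - j = k - l`, so `k ≠ l`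
and `i > j ↔ k > l`; if `i > j` use `IsCostas` for `(i,j,k,l)`, if `i < j` for `(j,i,l,k)`.
(2) `costasCount n` is the number of Costas permutations; `f ↦ (f : Fin n → Fin n)` is injective,
and any two functions differ in at most `n` columns, so `Bd n n M` gives `costasCount n ≤ M`.
(3) For `2 ≤ n < n0` use `costasCount n ≤ n! ≤ n0!` and `n^(4/5) (log n)^(6/5) ≥ 1/2` (for `n ≥ 2`:
`log 2 > 0.69`, `(log 2)^(6/5) ≥ (log 2)^2 ≥ 0.47`, `2^(4/5) ≥ 2^(1/2) ≥ 1.4`), so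
`K = max 5000 (2 * log (n0!))` works for all `n ≥ 2`. -/
def G_FIN : Prop :=
  (∃ n0 : ℕ, ∀ n : ℕ, n0 ≤ n →
      Bd n n (Real.exp (5000 * ((n : ℝ) ^ (4 / 5 : ℝ) * Real.log n ^ (6 / 5 : ℝ))))) →
  ∃ K : ℝ, ∀ n : ℕ, 2 ≤ n →
    (costasCount n : ℝ) ≤ Real.exp (K * ((n : ℝ) ^ (4 / 5 : ℝ) * Real.log n ^ (6 / 5 : ℝ)))

end Pool.Agent.Helper87.CA
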