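import Mathlib
import Pool.Agent.Helper96.Chernoff

/-!
Counting Costas arrays (MP_c5396e_co): definitions.
-/

set_option autoImplicit false

open Finset

namespace Pool.Agent.Helper87.CA

/-- `f` is a Costas array of order `n`: the displacement vectors `(f i - f j, i - j)`, `i > j`,
are pairwise distinct. -/
def IsCostas {n : ℕ} (f : Equiv.Perm (Fin n)) : Prop :=
  ∀ i j k l : Fin n, j < i → l < k →
    ((((f i : ℕ) : ℤ) - ((f j : ℕ) : ℤ)) = (((f k : ℕ) : ℤ) - ((f l : ℕ) : ℤ))) →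
    ((((i : ℕ) : ℤ) - ((j : ℕ) : ℤ)) = (((k : ℕ) : ℤ) - ((l : ℕ) : ℤ))) →
    i = k ∧ j = l

/-- `C(n)`, the number of Costas arrays of order `n`. -/
noncomputable def costasCount (n : ℕ) : ℕ := Nat.card {f : Equiv.Perm (Fin n) // IsCostas f}

/-! ### working definitions -/

noncomputable section

variable {n : ℕ}

/-- The dot of `f` in column `i`. -/
def pt (f : Fin n → Fin n) (i : Fin n) : ℤ × ℤ := (((i : ℕ) : ℤ), ((f i : ℕ) : ℤ))

/-- All difference vectors of dots of `f` are distinct. -/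
def Cos (f : Fin n → Fin n) : Prop :=
  ∀ i j k l : Fin n, i ≠ j → pt f i - pt f j = pt f k - pt f l → i = k ∧ j = l

/-- The corners `t` of the windows `t + [0,u)^2` which may meet `[0,n)^2`. -/
def Om (n u : ℕ) : Finset (ℤ × ℤ) :=
  Finset.Ioo (-(u : ℤ)) (n : ℤ) ×ˢ Finset.Ioo (-(u : ℤ)) (n : ℤ)

/-- `x` lies in the window `t + [0,u)^2`. -/
def InW (u : ℕ) (t x : ℤ × ℤ) : Prop :=
  t.1 ≤ x.1 ∧ x.1 < t.1 + u ∧ t.2 ≤ x.2 ∧ x.2 < t.2 + u

instance (u : ℕ) (t x : ℤ × ℤ) : Decidable (InW u t x) := by unfold InW; infer_instance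

/-- The number of dots of `f` in the columns of `I` and in the window with corner `t`. -/
def cw (u : ℕ) (f : Fin n → Fin n) (I : Finset (Fin n)) (t : ℤ × ℤ) : ℕ :=
  (I.filter (fun i => InW u t (pt f i))).card

/-- The number of windows of side `u` containing two given points with difference `δ`. -/
def wt2 (u : ℕ) (δ : ℤ × ℤ) : ℝ :=
  max 0 ((u : ℝ) - |(δ.1 : ℝ)|) * max 0 ((u : ℝ) - |(δ.2 : ℝ)|)

/-- Short vectors. -/
def Box (u : ℕ) : Finset (ℤ × ℤ) := Finset.Ioo (-(u : ℤ)) (u : ℤ) ×ˢ Finset.Ioo (-(u : ℤ)) (u : ℤ)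

/-- The set of difference vectors of distinct dots of `f`. -/
def DD (f : Fin n → Fin n) : Finset (ℤ × ℤ) :=
  ((Finset.univ : Finset (Fin n × Fin n)).filter (fun p => p.1 ≠ p.2)).image
    (fun p => pt f p.1 - pt f p.2)

/-- The weight of the short nonzero vectors which are not differences of `f`. -/
def miss (u : ℕ) (f : Fin n → Fin n) : ℝ :=
  ∑ δ ∈ (Box u).filter (fun δ => δ ≠ 0 ∧ δ ∉ DD f), wt2 u δ

/-- The columns `j` such that `v - pt f j` is a short difference vector of `f`. -/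
def A1 (u : ℕ) (f : Fin n → Fin n) (v : ℤ × ℤ) : Finset (Fin n) :=
  Finset.univ.filter (fun j => v - pt f j ∈ Box u ∧ v - pt f j ∈ DD f)

/-- The columns where `f` and `g` differ. -/
def Vd (f g : Fin n → Fin n) : Finset (Fin n) := Finset.univ.filter (fun i => f i ≠ g i)

/-- Three columns of `R` exclude the point `v`: `v - pt f j = pt f b - pt f c`. -/
def Kill (f : Fin n → Fin n) (R : Finset (Fin n)) (v : ℤ × ℤ) : Prop :=
  ∃ j ∈ R, ∃ b ∈ R, ∃ c ∈ R, b ≠ c ∧ v - pt f j = pt f b - pt f c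

/-- The set of columns of a random `ω`. -/
def Rs (ω : Fin n → Bool) : Finset (Fin n) := Finset.univ.filter (fun i => ω i = true)

/-- The random set of columns is good for `f` (with reference array `f0`). -/
def Good (u : ℕ) (p N0 k : ℝ) (f0 f : Fin n → Fin n) (ω : Fin n → Bool) : Prop :=
  (∀ t ∈ Om n u, (u : ℝ) ^ 2 / n / 2 ≤ cw u f Finset.univ t →
    p * ((u : ℝ) ^ 2 / n) / 4 ≤ cw u f (Rs ω) t) ∧
  (∀ v ∈ Finset.Ico (0 : ℤ) n ×ˢ Finset.Ico (0 : ℤ) n, (∀ i, pt f i ≠ v) →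
    ((Rs ω ∩ A1 u f v).card : ℝ) < 4 * p * N0 ∨ Kill f (Rs ω) v) ∧
  ((Rs ω ∩ Vd f f0).card : ℝ) < 4 * p * k

/-- Every family of arrays with distinct differences, pairwise different in at most `k` columns,
has at most `M` members. -/
def Bd (n : ℕ) (k M : ℝ) : Prop :=
  ∀ F : Finset (Fin n → Fin n), (∀ f ∈ F, Cos f) →
    (∀ f ∈ F, ∀ g ∈ F, ((Vd f g).card : ℝ) ≤ k) → (F.card : ℝ) ≤ M

end

end Pool.Agent.Helper87.CA
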